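import Pool.Agent.H301R2.SSE.Forms
import Pool.Agent.H340R2.LW
import Pool.Agent.H297R2.InBakerThm

set_option autoImplicit false

namespace Pool.Agent.Q258.TwoPar

open Pool.Agent.H301R2.SSE Pool.Agent.H340R2 Finset

theorem conj_alg {z : ℂ} (h : IsAlgebraic ℚ z) : IsAlgebraic ℚ ((starRingEnd ℂ) z) := by
  have := h.algHom (Complex.conjAe.toAlgHom.restrictScalars ℚ)
  exact this

theorem exp_alg {α : ℂ} (hα : IsAlgebraic ℚ α) (h : IsAlgebraic ℚ (Complex.exp α)) : α = 0 := by
  by_contra h0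
  exact LW.transcendental_cexp α hα h0 h

/-- uniqueness of the representation `t = a - β e^α` -/
theorem unique_rep {t a a' α α' β β' : ℂ} (ha : IsAlgebraic ℚ a) (ha' : IsAlgebraic ℚ a')
    (hα : IsAlgebraic ℚ α) (hα' : IsAlgebraic ℚ α') (hβ : IsAlgebraic ℚ β)
    (hβ' : IsAlgebraic ℚ β') (h0 : α ≠ 0) (h0' : α' ≠ 0) (hb : β ≠ 0)
    (h : t + β * Complex.exp α = a) (h' : t + β' * Complex.exp α' = a') :
    α = α' ∧ β = β' := by
  by_cases hαα : α = α'
  · subst hαα
    refine ⟨rfl, ?_⟩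
    by_contra hne
    apply h0
    apply exp_alg hα
    have h1 : (β - β') * Complex.exp α = a - a' := by linear_combination h - h'
    have h2 : β - β' ≠ 0 := sub_ne_zero.mpr hne
    have h3 : Complex.exp α = (a - a') * (β - β')⁻¹ := by
      field_simp
      linear_combination h1
    rw [h3]
    exact (ha.sub ha').mul (hβ.sub hβ').inv
  · exfalso
    have := LW.exp_linearIndependent_aux α α' (a' - a) β (-β') hα hα' h0 h0' hαα
      (ha'.sub ha) hβ hβ'.neg (by linear_combination h - h')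
    exact hb this.2.1

/-- three exponentials of distinct algebraic numbers -/
theorem lw3 (α : Fin 3 → ℂ) (hα : ∀ j, IsAlgebraic ℚ (α j)) (hinj : Function.Injective α)
    (s : ℂ) (hs : s ≠ 0) (c : Fin 3 → ℂ) (hc : ∀ j, IsAlgebraic ℚ (c j))
    (h : ∑ j, c j * (s * Complex.exp (α j)) = 0) (j : Fin 3) : c j = 0 := by
  refine LW.lindemann_weierstrass (Finset.univ : Finset (Fin 3)) α c (fun i _ => hα i)
    (fun i _ => hc i) hinj.injOn ?_ j (Finset.mem_univ j)
  have h1 : s * ∑ j, c j * Complex.exp (α j) = 0 := by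
    rw [Finset.mul_sum, ← h]
    exact Finset.sum_congr rfl fun j _ => by ring
  exact (mul_eq_zero.mp h1).resolve_left hs

/-- **no three** exponents `α` with `s e^α` and `s e^(α+d)` in the space of linear forms -/
theorem three (s : ℂ) (hs : s ≠ 0) (d : ℂ) (hd : IsAlgebraic ℚ d) (hd0 : d ≠ 0) (α : Fin 3 → ℂ)
    (hα : ∀ j, IsAlgebraic ℚ (α j)) (hinj : Function.Injective α)
    (h0 : ∀ j, s * Complex.exp (α j) ∈ Lt) (h1 : ∀ j, s * Complex.exp (α j + d) ∈ Lt) : False := by
  refine strong_six ![1, Complex.exp d] (fun j => s * Complex.exp (α j)) ?_ ?_ ?_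
  · intro a b ha hb hab
    simp only [Matrix.cons_val_zero, Matrix.cons_val_one, mul_one] at hab
    by_cases hb0 : b = 0
    · subst hb0
      refine ⟨?_, rfl⟩
      simpa using hab
    · exfalso
      apply hd0
      apply exp_alg hd
      have : Complex.exp d = -a * b⁻¹ := by
        field_simp
        linear_combination hab
      rw [this]
      exact ha.neg.mul hb.inv
  · intro c hc hsum j
    exact lw3 α hα hinj s hs c hc hsum j
  · intro i j
    fin_cases i
    · simpa using h0 j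
    · have := h1 j
      rw [Complex.exp_add] at this
      show Complex.exp d * (s * Complex.exp (α j)) ∈ Lt
      convert this using 1
      ring

instance : Algebra.IsAlgebraic ℚ QB := algebraicClosure.isAlgebraic ℚ ℂ

theorem trans_QB {θ : ℂ} (hθ : Transcendental ℚ θ) : Transcendental QB θ := fun h =>
  hθ (h.restrictScalars ℚ)

/-- distinct powers of a transcendental number are independent over the algebraic numbers -/
theorem pow_indep {ι : Type} [Fintype ι] {θ : ℂ} (hθ : Transcendental ℚ θ) (n : ι → ℕ)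
    (hn : Function.Injective n) (c : ι → ℂ) (hc : ∀ j, IsAlgebraic ℚ (c j))
    (h : ∑ j, c j * θ ^ n j = 0) (j : ι) : c j = 0 := by
  classical
  let P : Polynomial QB := ∑ j, Polynomial.monomial (n j) (⟨c j, mem_QB.mpr (hc j)⟩ : QB)
  have hP : Polynomial.aeval θ P = 0 := by
    rw [map_sum, ← h]
    refine Finset.sum_congr rfl fun j _ => ?_
    rw [Polynomial.aeval_monomial]
    rfl
  have hP0 : P = 0 := by
    by_contra hne
    exact trans_QB hθ ⟨P, hne, hP⟩
  have h1 : P.coeff (n j) = (⟨c j, mem_QB.mpr (hc j)⟩ : QB) := by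
    rw [Polynomial.finsetSum_coeff]
    rw [Finset.sum_eq_single j]
    · rw [Polynomial.coeff_monomial, if_pos rfl]
    · intro i _ hij
      rw [Polynomial.coeff_monomial, if_neg]
      exact fun h => hij (hn h)
    · intro hj
      exact absurd (Finset.mem_univ j) hj
  rw [hP0, Polynomial.coeff_zero] at h1
  have := congrArg (fun x : QB => (x : ℂ)) h1
  exact this.symm

/-- a root of a transcendental number -/
theorem root_trans {t : ℝ} (ht : 0 < t) (htr : Transcendental ℚ t) (N : ℕ) (hN : 0 < N) :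
    Transcendental ℚ ((t ^ ((1 : ℝ) / N) : ℝ) : ℂ) := by
  intro h
  apply htr
  have h1 : IsAlgebraic ℚ ((t ^ ((1 : ℝ) / N) : ℝ)) :=
    (isAlgebraic_algebraMap_iff (A := ℂ) (algebraMap ℝ ℂ).injective).mp h
  have h2 : t = (t ^ ((1 : ℝ) / N)) ^ N := by
    rw [← Real.rpow_natCast, ← Real.rpow_mul ht.le]
    have : (1 : ℝ) / N * N = 1 := by
      have : (N : ℝ) ≠ 0 := by positivity
      field_simp
    rw [this, Real.rpow_one]
  rw [h2]
  exact h1.pow N

/-- common denominator for finitely many rational exponents -/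
theorem common {ι : Type} [Fintype ι] (r : ι → ℚ) : ∃ (N : ℕ) (k : ι → ℤ), 0 < N ∧
    ∀ j, r j = (k j : ℚ) / N := by
  classical
  refine ⟨∏ j, (r j).den, fun j => (r j).num * ∏ i ∈ Finset.univ.erase j, ((r i).den : ℤ),
    Finset.prod_pos fun j _ => (r j).pos, fun j => ?_⟩
  have h1 : (∏ i, ((r i).den : ℚ)) = (r j).den * ∏ i ∈ Finset.univ.erase j, ((r i).den : ℚ) :=
    (Finset.mul_prod_erase Finset.univ (fun i => ((r i).den : ℚ)) (Finset.mem_univ j)).symm
  push_cast
  rw [h1]
  have h2 : (∏ i ∈ Finset.univ.erase j, ((r i).den : ℚ)) ≠ 0 :=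
    Finset.prod_ne_zero_iff.mpr fun i _ => by exact_mod_cast (r i).den_nz
  have h3 : ((r j).den : ℚ) ≠ 0 := by exact_mod_cast (r j).den_nz
  rw [mul_div_mul_right _ _ h2, Rat.num_div_den]

/-- distinct rational powers of a positive transcendental real number are independent -/
theorem rpow_indep {ι : Type} [Fintype ι] {t : ℝ} (ht : 0 < t) (htr : Transcendental ℚ t)
    (r : ι → ℚ) (hr : Function.Injective r) (s : ℂ) (hs : s ≠ 0) (c : ι → ℂ)
    (hc : ∀ j, IsAlgebraic ℚ (c j))
    (h : ∑ j, c j * (((t ^ ((r j : ℚ) : ℝ) : ℝ) : ℂ) * s) = 0) (j : ι) : c j = 0 := by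
  obtain ⟨N, k, hN, hk⟩ := common r
  set θ : ℝ := t ^ ((1 : ℝ) / N) with hθ
  have hθ0 : 0 < θ := Real.rpow_pos_of_pos ht _
  have hN' : (N : ℝ) ≠ 0 := by positivity
  have e1 : ∀ j, t ^ ((r j : ℚ) : ℝ) = θ ^ (k j) := by
    intro j
    rw [hθ, ← Real.rpow_intCast, ← Real.rpow_mul ht.le, hk j]
    congr 1
    push_cast
    field_simp
  obtain ⟨M, hM⟩ : ∃ M : ℕ, ∀ j, 0 ≤ k j + M := by
    refine ⟨∑ j, (k j).natAbs, fun j => ?_⟩
    have : (k j).natAbs ≤ ∑ j, (k j).natAbs :=
      Finset.single_le_sum (f := fun j => (k j).natAbs) (fun _ _ => Nat.zero_le _)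
        (Finset.mem_univ j)
    omega
  refine pow_indep (root_trans ht htr N hN) (fun j => (k j + M).toNat) ?_ c hc ?_ j
  · intro a b hab
    have h1 := hM a
    have h2 := hM b
    have h3 : k a = k b := by
      simp only at hab
      omega
    apply hr
    rw [hk a, hk b, h3]
  · have h1 : s * ∑ j, c j * ((t ^ ((r j : ℚ) : ℝ) : ℝ) : ℂ) = 0 := by
      rw [Finset.mul_sum, ← h]
      exact Finset.sum_congr rfl fun j _ => by ring
    have h2 := (mul_eq_zero.mp h1).resolve_left hs
    have h3 : ∀ j, (((θ : ℝ) : ℂ)) ^ ((k j + M).toNat) =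
        ((θ : ℝ) : ℂ) ^ M * ((t ^ ((r j : ℚ) : ℝ) : ℝ) : ℂ) := by
      intro j
      rw [e1 j]
      have h4 : ((θ : ℝ) : ℂ) ≠ 0 := by exact_mod_cast hθ0.ne'
      rw [← zpow_natCast, Int.toNat_of_nonneg (hM j), zpow_add₀ h4, Complex.ofReal_zpow,
        zpow_natCast]
      ring
    calc ∑ j, c j * ((θ : ℝ) : ℂ) ^ ((k j + M).toNat)
        = ((θ : ℝ) : ℂ) ^ M * ∑ j, c j * ((t ^ ((r j : ℚ) : ℝ) : ℝ) : ℂ) := by
          rw [Finset.mul_sum]
          exact Finset.sum_congr rfl fun j _ => by rw [h3 j]; ring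
      _ = 0 := by rw [h2, mul_zero]

/-- three powers `t^r`, `r` rational, `t` real and transcendental -/
theorem three_pow (t : ℝ) (ht : 0 < t) (htr : Transcendental ℚ t) (s : ℂ) (hs : s ≠ 0) (d : ℚ)
    (hd0 : d ≠ 0) (r : Fin 3 → ℚ) (hinj : Function.Injective r)
    (h0 : ∀ j, ((t ^ ((r j : ℚ) : ℝ) : ℝ) : ℂ) * s ∈ Lt)
    (h1 : ∀ j, ((t ^ ((r j + d : ℚ) : ℝ) : ℝ) : ℂ) * s ∈ Lt) : False := by
  refine strong_six ![1, ((t ^ ((d : ℚ) : ℝ) : ℝ) : ℂ)]
    (fun j => ((t ^ ((r j : ℚ) : ℝ) : ℝ) : ℂ) * s) ?_ ?_ ?_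
  · intro a b ha hb hab
    simp only [Matrix.cons_val_zero, Matrix.cons_val_one, mul_one] at hab
    have h2 := rpow_indep ht htr ![0, d] (by
      intro i j hij
      fin_cases i <;> fin_cases j
      · rfl
      · exact absurd hij.symm hd0
      · exact absurd hij hd0
      · rfl) 1 one_ne_zero ![a, b] (by
      intro i
      fin_cases i
      · exact ha
      · exact hb) (by
      rw [Fin.sum_univ_two]
      simp only [Matrix.cons_val_zero, Matrix.cons_val_one, Rat.cast_zero, Real.rpow_zero,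
        Complex.ofReal_one, mul_one]
      exact hab)
    exact ⟨h2 0, h2 1⟩
  · intro c hc hsum j
    exact rpow_indep ht htr r hinj s hs c hc hsum j
  · intro i j
    fin_cases i
    · simpa using h0 j
    · have := h1 j
      rw [Rat.cast_add, Real.rpow_add ht, Complex.ofReal_mul] at this
      show ((t ^ ((d : ℚ) : ℝ) : ℝ) : ℂ) * (((t ^ ((r j : ℚ) : ℝ) : ℝ) : ℂ) * s) ∈ Lt
      convert this using 1
      ring

/-- Gelfond-Schneider: the `β` with `e^(βz)` algebraic lie on one line -/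
theorem line {z β γ : ℂ} (hz : z ≠ 0) (hβ : IsAlgebraic ℚ β) (hγ : IsAlgebraic ℚ γ) (hγ0 : γ ≠ 0)
    (h1 : IsAlgebraic ℚ (Complex.exp (β * z))) (h2 : IsAlgebraic ℚ (Complex.exp (γ * z))) :
    ∃ q : ℚ, β = q * γ := by
  by_contra hcon
  push Not at hcon
  have hω : LinearIndependent ℚ ![β * z, γ * z] := by
    rw [LinearIndependent.pair_iff]
    intro a b hab
    simp only [Rat.smul_def] at hab
    have h3 : (a : ℂ) * β + b * γ = 0 := by
      have : ((a : ℂ) * β + b * γ) * z = 0 := by linear_combination hab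
      exact (mul_eq_zero.mp this).resolve_right hz
    by_cases ha : a = 0
    · subst ha
      refine ⟨rfl, ?_⟩
      simpa [hγ0] using h3
    · exfalso
      apply hcon (-b / a)
      have ha' : (a : ℂ) ≠ 0 := by exact_mod_cast ha
      push_cast
      field_simp
      linear_combination h3
  have := Pool.Agent.H297R2.baker_inhom ![β * z, γ * z] (by
    intro i
    fin_cases i
    · exact h1
    · exact h2) hω 0 isAlgebraic_zero ![γ, -β] (by
    intro i
    fin_cases i
    · exact hγ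
    · exact hβ.neg) (by
    rw [Fin.sum_univ_two]
    simp only [Matrix.cons_val_zero, Matrix.cons_val_one]
    ring)
  exact hγ0 (this.2 0)

/-- counting in a near-Sidon set -/
theorem near_sidon {G : Type} [AddCommGroup G] [DecidableEq G] (F B : Finset G) (hB : B ⊆ F)
    (h : ∀ d : G, d ≠ 0 → (B.filter (fun a => a + d ∈ B)).card ≤ 2) :
    B.card * (B.card - 1) ≤ 2 * (((F ×ˢ F).image (fun p => p.2 - p.1)).erase 0).card := by
  have h1 : B.offDiag.card = B.card * (B.card - 1) := by
    rw [Finset.offDiag_card, Nat.mul_sub, mul_one]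
  rw [← h1]
  have h2 := Finset.card_le_mul_card_image (f := fun p : G × G => p.2 - p.1) B.offDiag 2 (by
    intro d hd
    obtain ⟨p, hp, hpd⟩ := Finset.mem_image.mp hd
    rw [Finset.mem_offDiag] at hp
    have hd0 : d ≠ 0 := by
      rw [← hpd]
      exact sub_ne_zero.mpr (fun h => hp.2.2 h.symm)
    refine le_trans ?_ (h d hd0)
    refine Finset.card_le_card_of_injOn (fun p => p.1) ?_ ?_
    · intro q hq
      have hq := Finset.mem_filter.mp (Finset.mem_coe.mp hq)
      have hq1 := Finset.mem_offDiag.mp hq.1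
      simp only [Finset.coe_filter, Set.mem_ofPred_eq]
      refine ⟨hq1.1, ?_⟩
      have : q.1 + d = q.2 := by rw [← hq.2]; abel
      rw [this]
      exact hq1.2.1
    · intro q hq q' hq' hqq
      have h3 := (Finset.mem_filter.mp (Finset.mem_coe.mp hq)).2
      have h4 := (Finset.mem_filter.mp (Finset.mem_coe.mp hq')).2
      simp only at hqq h3 h4
      have h5 : q.2 = q'.2 := by
        have : q.2 = d + q.1 := by rw [← h3]; abel
        rw [this, hqq, ← h4]; abel
      exact Prod.ext hqq h5)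
  refine h2.trans (Nat.mul_le_mul_left 2 (Finset.card_le_card ?_))
  intro d hd
  obtain ⟨p, hp, hpd⟩ := Finset.mem_image.mp hd
  rw [Finset.mem_offDiag] at hp
  rw [Finset.mem_erase]
  refine ⟨?_, Finset.mem_image.mpr ⟨p, Finset.mem_product.mpr ⟨hB hp.1, hB hp.2.1⟩, hpd⟩⟩
  rw [← hpd]
  exact sub_ne_zero.mpr (fun h => hp.2.2 h.symm)

/-- in an interval of `N` integers -/
theorem near_sidon_int (P : ℤ → Prop) (a : ℤ) (N : ℕ) (B : Finset ℤ)
    (hB : B ⊆ Finset.Ioc a (a + N)) (hP : ∀ k ∈ B, P k)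
    (h : ∀ d : ℤ, d ≠ 0 → ∀ r : Fin 3 → ℤ, Function.Injective r → (∀ j, P (r j)) →
      (∀ j, P (r j + d)) → False) :
    (B.card : ℝ) ≤ 2 * Real.sqrt N + 1 := by
  classical
  have h1 := near_sidon (Finset.Ioc a (a + N)) B hB (by
    intro d hd
    by_contra hcon
    push Not at hcon
    obtain ⟨x, hx, y, hy, z, hz, hxy, hxz, hyz⟩ := Finset.two_lt_card.mp hcon
    rw [Finset.mem_filter] at hx hy hz
    refine h d hd ![x, y, z] ?_ ?_ ?_
    · intro i j hij
      fin_cases i <;> fin_cases j <;> first | rfl | (exfalso; simp at hij; tauto)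
    · intro j
      fin_cases j
      · exact hP _ hx.1
      · exact hP _ hy.1
      · exact hP _ hz.1
    · intro j
      fin_cases j
      · exact hP _ hx.2
      · exact hP _ hy.2
      · exact hP _ hz.2)
  have h2 : (((Finset.Ioc a (a + N) ×ˢ Finset.Ioc a (a + N)).image
      (fun p => p.2 - p.1)).erase 0).card ≤ 2 * N := by
    have : ((Finset.Ioc a (a + N) ×ˢ Finset.Ioc a (a + N)).image
        (fun p => p.2 - p.1)).erase 0 ⊆ (Finset.Icc (-(N : ℤ)) N).erase 0 := by
      apply Finset.erase_subset_erase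
      intro d hd
      obtain ⟨p, hp, rfl⟩ := Finset.mem_image.mp hd
      rw [Finset.mem_product, Finset.mem_Ioc, Finset.mem_Ioc] at hp
      rw [Finset.mem_Icc]
      constructor <;> linarith [hp.1.1, hp.1.2, hp.2.1, hp.2.2]
    refine (Finset.card_le_card this).trans ?_
    rw [Finset.card_erase_of_mem (by rw [Finset.mem_Icc]; constructor <;> omega), Int.card_Icc]
    omega
  have h3 : B.card * (B.card - 1) ≤ 4 * N := by
    calc _ ≤ _ := h1
      _ ≤ 2 * (2 * N) := Nat.mul_le_mul_left 2 h2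
      _ = 4 * N := by ring
  rcases Nat.eq_zero_or_pos B.card with h0 | h0
  · rw [h0]
    have := Real.sqrt_nonneg N
    push_cast
    linarith
  · obtain ⟨b, hb⟩ : ∃ b, B.card = b + 1 := ⟨B.card - 1, by omega⟩
    rw [hb] at h3 ⊢
    rw [Nat.add_sub_cancel] at h3
    have h4 : (b : ℝ) ^ 2 ≤ 4 * N := by
      have : b ^ 2 ≤ 4 * N := by nlinarith
      exact_mod_cast this
    have h5 : (b : ℝ) ≤ 2 * Real.sqrt N := by
      have h6 : (b : ℝ) = Real.sqrt ((b : ℝ) ^ 2) := (Real.sqrt_sq (Nat.cast_nonneg b)).symm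
      rw [h6]
      calc Real.sqrt ((b : ℝ) ^ 2) ≤ Real.sqrt (4 * N) := Real.sqrt_le_sqrt h4
        _ = 2 * Real.sqrt N := by
          rw [Real.sqrt_mul (by norm_num)]
          congr 1
          rw [show (4 : ℝ) = 2 ^ 2 by norm_num]
          exact Real.sqrt_sq (by norm_num)
    push_cast
    linarith

end Pool.Agent.Q258.TwoPar
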