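import Pool.Agent.Q258.TwoPar.A
import Pool.Agent.W243.TD.Use
import Pool.Agent.W242.GG.Count
import Pool.Agent.W252.BWFinal

set_option autoImplicit false

namespace Pool.Agent.Q258.TwoPar

open Pool.Agent.W243.TD Module Pointwise

theorem al_self (t : ℂ) : Al t t := isAlgebraic_algebraMap
      (⟨t, IntermediateField.mem_adjoin_simple_self ℚ _⟩ : IntermediateField.adjoin ℚ {t})

theorem al_of_alg {t x : ℂ} (h : IsAlgebraic ℚ x) : Al t x :=
  h.extendScalars (algebraMap ℚ _).injective

theorem dep_al {t w : ℂ} (ht : Transcendental ℚ t) (h : ¬ AlgebraicIndependent ℚ ![t, w]) :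
    Al t w := by
  by_contra hb
  exact h (Pool.Agent.W242.GG.algInd_pair ht hb)

/-- a rational power of `e^τ` -/
theorem al_rpow (τ : ℂ) (r : ℚ) : Al (Complex.exp τ) (Complex.exp (r * τ)) := by
  have hd : 0 < r.den := r.den_pos
  apply IsAlgebraic.of_pow hd
  have e1 : Complex.exp (r * τ) ^ r.den = Complex.exp τ ^ r.num := by
    rw [← Complex.exp_nat_mul, ← Complex.exp_int_mul, ← mul_assoc]
    congr 2
    have := Rat.den_mul_eq_num r
    exact_mod_cast this
  rw [e1]
  obtain ⟨m, hm | hm⟩ := r.num.eq_nat_or_neg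
  · rw [hm, zpow_natCast]; exact (al_self _).pow m
  · rw [hm, zpow_neg, zpow_natCast]; exact ((al_self _).pow m).inv

/-- distinct rational powers of `e^τ` are independent over the algebraic numbers -/
theorem tau_indep {ι : Type} [Fintype ι] {τ : ℂ} (hτ : Transcendental ℚ (Complex.exp τ))
    (r : ι → ℚ) (hr : Function.Injective r) (s : ℂ) (hs : s ≠ 0) (c : ι → ℂ)
    (hc : ∀ j, IsAlgebraic ℚ (c j))
    (h : ∑ j, c j * (s * Complex.exp (r j * τ)) = 0) (j : ι) : c j = 0 := by
  obtain ⟨N, k, hN, hk⟩ := common r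
  have hN' : (N : ℂ) ≠ 0 := by exact_mod_cast hN.ne'
  set θ : ℂ := Complex.exp (τ / N) with hθ
  have hθt : Transcendental ℚ θ := by
    intro h1
    apply hτ
    have : Complex.exp τ = θ ^ N := by
      rw [hθ, ← Complex.exp_nat_mul]
      congr 1
      field_simp
    rw [this]
    exact h1.pow N
  have e1 : ∀ j, Complex.exp (r j * τ) = θ ^ (k j) := by
    intro j
    rw [hθ, ← Complex.exp_int_mul, hk j]
    congr 1
    push_cast
    field_simp
  obtain ⟨M, hM⟩ : ∃ M : ℕ, ∀ j, 0 ≤ k j + M := by
    refine ⟨∑ j, (k j).natAbs, fun j => ?_⟩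
    have : (k j).natAbs ≤ ∑ j, (k j).natAbs :=
      Finset.single_le_sum (f := fun j => (k j).natAbs) (fun _ _ => Nat.zero_le _)
        (Finset.mem_univ j)
    omega
  refine pow_indep hθt (fun j => (k j + M).toNat) ?_ c hc ?_ j
  · intro a b hab
    have h1 := hM a
    have h2 := hM b
    have h3 : k a = k b := by
      simp only at hab
      omega
    apply hr
    rw [hk a, hk b, h3]
  · have h1 : s * ∑ j, c j * Complex.exp (r j * τ) = 0 := by
      rw [Finset.mul_sum, ← h]
      exact Finset.sum_congr rfl fun j _ => by ring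
    have h2 := (mul_eq_zero.mp h1).resolve_left hs
    have h3 : ∀ j, θ ^ ((k j + M).toNat) = θ ^ M * Complex.exp (r j * τ) := by
      intro j
      rw [e1 j]
      have h4 : θ ≠ 0 := Complex.exp_ne_zero _
      rw [← zpow_natCast, Int.toNat_of_nonneg (hM j), zpow_add₀ h4, zpow_natCast]
      ring
    calc ∑ j, c j * θ ^ ((k j + M).toNat)
        = θ ^ M * ∑ j, c j * Complex.exp (r j * τ) := by
          rw [Finset.mul_sum]
          exact Finset.sum_congr rfl fun j _ => by rw [h3 j]; ring
      _ = 0 := by rw [h2, mul_zero]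

/-- the rational space spanned by `s e^(rτ)`, `r ∈ F` -/
noncomputable def Sp (s τ : ℂ) (F : Finset ℚ) : Submodule ℚ ℂ :=
  Submodule.span ℚ (Set.range (fun r : F => s * Complex.exp ((r : ℚ) * τ)))

instance (s τ : ℂ) (F : Finset ℚ) : FiniteDimensional ℚ (Sp s τ F) :=
  FiniteDimensional.span_of_finite ℚ (Set.finite_range _)

theorem Sp_rank {s τ : ℂ} (hs : s ≠ 0) (hτ : Transcendental ℚ (Complex.exp τ)) (F : Finset ℚ) :
    finrank ℚ (Sp s τ F) = F.card := by
  have hli : LinearIndependent ℚ (fun r : F => s * Complex.exp ((r : ℚ) * τ)) := by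
    rw [Fintype.linearIndependent_iff]
    intro g hg j
    have := tau_indep hτ (fun r : F => (r : ℚ)) Subtype.val_injective s hs
      (fun j => ((g j : ℚ) : ℂ)) (fun j => by
        have := isAlgebraic_algebraMap (R := ℚ) (A := ℂ) (g j)
        simpa using this) (by
        simp only [Rat.smul_def] at hg
        exact hg) j
    exact_mod_cast this
  rw [Sp, finrank_span_eq_card hli, Fintype.card_coe]

theorem Sp_mul {s s' τ : ℂ} {X W : Finset ℚ} {x z : ℂ} (hx : x ∈ Sp s τ X) (hz : z ∈ Sp s' τ W) :
    x * z ∈ Sp (s * s') τ (X + W) := by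
  induction hx using Submodule.span_induction with
  | mem x hx =>
    obtain ⟨i, rfl⟩ := hx
    induction hz using Submodule.span_induction with
    | mem z hz =>
      obtain ⟨j, rfl⟩ := hz
      have e : s * Complex.exp ((i : ℚ) * τ) * (s' * Complex.exp ((j : ℚ) * τ)) =
          (s * s') * Complex.exp (((i : ℚ) + (j : ℚ) : ℚ) * τ) := by
        push_cast
        rw [add_mul, Complex.exp_add]
        ring
      simp only
      rw [e]
      exact Submodule.subset_span ⟨⟨(i : ℚ) + (j : ℚ), Finset.add_mem_add i.2 j.2⟩, rfl⟩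
    | zero => rw [mul_zero]; exact Submodule.zero_mem _
    | add u v _ _ hu hv => rw [mul_add]; exact Submodule.add_mem _ hu hv
    | smul a u _ hu => rw [mul_smul_comm]; exact Submodule.smul_mem _ a hu
  | zero => rw [zero_mul]; exact Submodule.zero_mem _
  | add u v _ _ hu hv => rw [add_mul]; exact Submodule.add_mem _ hu hv
  | smul a u _ hu => rw [smul_mul_assoc]; exact Submodule.smul_mem _ a hu

theorem Sp_al {τ : ℂ} {W : Finset ℚ} {z : ℂ} (hz : z ∈ Sp 1 τ W) : Al (Complex.exp τ) z := by
  induction hz using Submodule.span_induction with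
  | mem x hx =>
    obtain ⟨i, rfl⟩ := hx
    simp only [one_mul]
    exact al_rpow τ _
  | zero => exact isAlgebraic_zero
  | add u v _ _ hu hv => exact hu.add hv
  | smul a u _ hu =>
    rw [Rat.smul_def]
    refine (al_of_alg ?_).mul hu
    have := isAlgebraic_algebraMap (R := ℚ) (A := ℂ) a
    simpa using this

theorem exp_Sp {y τ : ℂ} {W : Finset ℚ}
    (h : ∀ r ∈ W, Al (Complex.exp τ) (Complex.exp (y * Complex.exp ((r : ℚ) * τ)))) :
    ∀ z ∈ Sp y τ W, Al (Complex.exp τ) (Complex.exp z) :=
  al_exp_span (f := fun r : W => y * Complex.exp (((r : ℚ) : ℂ) * τ)) (fun i => h i i.2)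

/-- product inequality for sets of exponents, multiplier algebraic over `ℚ(e^τ)` -/
theorem sum1 {y τ : ℂ} (hτ : Transcendental ℚ (Complex.exp τ)) (hy : y ≠ 0)
    (hy' : Al (Complex.exp τ) y) (X W : Finset ℚ)
    (h : ∀ r ∈ W, Al (Complex.exp τ) (Complex.exp (y * Complex.exp ((r : ℚ) * τ)))) :
    X.card * W.card ≤ (X + W).card + X.card * (X.card - 1) := by
  have h1 := prod1 hτ (Sp 1 τ X) (Sp y τ W) (Sp (1 * y) τ (X + W)) (by
    intro z hz
    have h2 : z * y⁻¹ ∈ Sp 1 τ W := by
      induction hz using Submodule.span_induction with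
      | mem x hx =>
        obtain ⟨i, rfl⟩ := hx
        refine Submodule.subset_span ⟨i, ?_⟩
        simp only
        field_simp
      | zero => rw [zero_mul]; exact Submodule.zero_mem _
      | add u v _ _ hu hv => rw [add_mul]; exact Submodule.add_mem _ hu hv
      | smul a u _ hu => rw [smul_mul_assoc]; exact Submodule.smul_mem _ a hu
    have h3 : z = z * y⁻¹ * y := by field_simp
    rw [h3]
    exact (Sp_al h2).mul hy') (exp_Sp h) (fun x hx z hz => Sp_mul hx hz)
  rwa [Sp_rank one_ne_zero hτ, Sp_rank hy hτ, Sp_rank (by simpa using hy) hτ] at h1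

/-- product inequality for sets of exponents, any multiplier -/
theorem sum2 {y τ : ℂ} (hτ : Transcendental ℚ (Complex.exp τ)) (hy : y ≠ 0) (X W : Finset ℚ)
    (h : ∀ r ∈ W, Al (Complex.exp τ) (Complex.exp (y * Complex.exp ((r : ℚ) * τ)))) :
    X.card * W.card ≤ (X + W).card + 2 * (X.card * (X.card - 1)) := by
  have h1 := prod2 hτ hy (Sp 1 τ X) (Sp 1 τ W) (Sp (1 * 1) τ (X + W)) (fun z hz => Sp_al hz) (by
    intro z hz
    have h2 : y * z ∈ Sp y τ W := by
      induction hz using Submodule.span_induction with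
      | mem x hx =>
        obtain ⟨i, rfl⟩ := hx
        refine Submodule.subset_span ⟨i, ?_⟩
        simp only
        ring
      | zero => rw [mul_zero]; exact Submodule.zero_mem _
      | add u v _ _ hu hv => rw [mul_add]; exact Submodule.add_mem _ hu hv
      | smul a u _ hu => rw [mul_smul_comm]; exact Submodule.smul_mem _ a hu
    exact exp_Sp h _ h2) (fun x hx z hz => Sp_mul hx hz)
  rwa [Sp_rank one_ne_zero hτ, Sp_rank one_ne_zero hτ, Sp_rank (by simp) hτ] at h1

/-- two exponents -/
theorem pair_bound (W : Finset ℚ) (d : ℚ) (hd : d ≠ 0) (m : ℕ)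
    (h : ({0, d} : Finset ℚ).card * W.card ≤ (({0, d} : Finset ℚ) + W).card + m) :
    (W.filter (fun r => r + d ∈ W)).card ≤ m := by
  classical
  have h1 : ({0, d} : Finset ℚ).card = 2 := Finset.card_pair hd.symm
  have h2 : ({0, d} : Finset ℚ) + W = W ∪ W.image (fun r => d + r) := by
    ext x
    simp only [Finset.mem_add, Finset.mem_insert, Finset.mem_singleton, Finset.mem_union,
      Finset.mem_image]
    constructor
    · rintro ⟨a, rfl | rfl, b, hb, rfl⟩
      · left; simpa using hb
      · right; exact ⟨b, hb, rfl⟩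
    · rintro (hx | ⟨b, hb, rfl⟩)
      · exact ⟨0, Or.inl rfl, x, hx, by simp⟩
      · exact ⟨d, Or.inr rfl, b, hb, rfl⟩
  have h3 : (W.image (fun r => d + r)).card = W.card :=
    Finset.card_image_of_injective _ (add_right_injective d)
  have h4 := Finset.card_union_add_card_inter W (W.image (fun r => d + r))
  have h5 : (W.filter (fun r => r + d ∈ W)).card ≤ (W ∩ W.image (fun r => d + r)).card := by
    refine Finset.card_le_card_of_injOn (fun r => d + r) ?_ (add_right_injective d).injOn
    intro r hr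
    have hr := Finset.mem_filter.mp (Finset.mem_coe.mp hr)
    rw [Finset.mem_coe, Finset.mem_inter]
    refine ⟨?_, Finset.mem_image_of_mem _ hr.1⟩
    show d + r ∈ W
    rw [add_comm]
    exact hr.2
  rw [h1, h2] at h
  omega

/-- **Brownawell-Waldschmidt for a line of exponents.** -/
theorem bw_line {α β : ℂ} (hα : IsAlgebraic ℚ α) (hβ : IsAlgebraic ℚ β) (hα0 : α ≠ 0)
    (hβ0 : β ≠ 0) (q : ℚ) (hq : q ≠ 0)
    (h1 : IsAlgebraic ℚ (Complex.exp (β * Complex.exp α)))
    (h2 : IsAlgebraic ℚ (Complex.exp (q * β ^ 2 / α * Complex.exp (2 * α)))) : False := by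
  have hθ : Transcendental ℚ (Complex.exp α) :=
    Pool.Agent.H340R2.LW.transcendental_cexp α hα hα0
  have hqa : IsAlgebraic ℚ (q : ℂ) := by
    have := isAlgebraic_algebraMap (R := ℚ) (A := ℂ) q
    simpa using this
  have hqc : (q : ℂ) ≠ 0 := by exact_mod_cast hq
  have hγ : IsAlgebraic ℚ ((q : ℂ) * β ^ 2 / α) := by
    rw [div_eq_mul_inv]
    exact (hqa.mul (hβ.pow 2)).mul hα.inv
  have hγ0 : (q : ℂ) * β ^ 2 / α ≠ 0 := div_ne_zero (mul_ne_zero hqc (pow_ne_zero _ hβ0)) hα0
  have hli : ∀ u v : ℂ, IsAlgebraic ℚ u → IsAlgebraic ℚ v → u ≠ 0 → v ≠ 0 →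
      ∀ a b : ℚ, (a : ℂ) * u + b * (v * Complex.exp α) = 0 → a = 0 ∧ b = 0 := by
    intro u v hu hv hu0 hv0 a b hab
    have hra : ∀ a : ℚ, IsAlgebraic ℚ (a : ℂ) := by
      intro a
      have := isAlgebraic_algebraMap (R := ℚ) (A := ℂ) a
      simpa using this
    by_cases hb : b = 0
    · subst hb
      refine ⟨?_, rfl⟩
      simpa [hu0] using hab
    · exfalso
      apply hθ
      have hb' : (b : ℂ) ≠ 0 := by exact_mod_cast hb
      have : Complex.exp α = -(a * u) * (b * v)⁻¹ := by
        field_simp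
        linear_combination hab
      rw [this]
      exact ((hra a).mul hu).neg.mul ((hra b).mul hv).inv
  refine Pool.Agent.W252.bw hθ ![β, (q : ℂ) * β ^ 2 / α * Complex.exp α]
    ![Complex.exp α, α / β] ?_ ?_ ?_ ?_ ?_ ?_
  · rw [LinearIndependent.pair_iff]
    intro a b hab
    simp only [Rat.smul_def] at hab
    exact hli β _ hβ hγ hβ0 hγ0 a b hab
  · rw [LinearIndependent.pair_iff]
    intro a b hab
    simp only [Rat.smul_def] at hab
    have := hli (α / β) 1 (by rw [div_eq_mul_inv]; exact hα.mul hβ.inv) isAlgebraic_one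
      (div_ne_zero hα0 hβ0) one_ne_zero b a (by rw [one_mul]; linear_combination hab)
    exact ⟨this.2, this.1⟩
  · intro i
    fin_cases i
    · exact al_of_alg hβ
    · exact (al_of_alg hγ).mul (al_self _)
  · intro i
    fin_cases i
    · exact al_self _
    · show Al _ (α / β)
      rw [div_eq_mul_inv]
      exact (al_of_alg hα).mul (al_of_alg hβ.inv)
  · intro i
    fin_cases i
    · exact h1
    · show IsAlgebraic ℚ (Complex.exp ((q : ℂ) * β ^ 2 / α * Complex.exp α * Complex.exp α))
      convert h2 using 2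
      rw [mul_assoc, ← Complex.exp_add]
      congr 2
      ring
  · intro i
    fin_cases i
    · show Al _ (Complex.exp (β * (α / β)))
      have : β * (α / β) = α := by field_simp
      rw [this]
      exact al_self _
    · show Al _ (Complex.exp ((q : ℂ) * β ^ 2 / α * Complex.exp α * (α / β)))
      have : (q : ℂ) * β ^ 2 / α * Complex.exp α * (α / β) = q * (β * Complex.exp α) := by
        field_simp
      rw [this]
      apply al_of_alg
      have hd : 0 < q.den := q.den_pos
      apply IsAlgebraic.of_pow hd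
      have e1 : Complex.exp (q * (β * Complex.exp α)) ^ q.den =
          Complex.exp (β * Complex.exp α) ^ q.num := by
        rw [← Complex.exp_nat_mul, ← Complex.exp_int_mul, ← mul_assoc]
        congr 2
        have := Rat.den_mul_eq_num q
        exact_mod_cast this
      rw [e1]
      obtain ⟨m, hm | hm⟩ := q.num.eq_nat_or_neg
      · rw [hm, zpow_natCast]; exact h1.pow m
      · rw [hm, zpow_neg, zpow_natCast]; exact (h1.pow m).inv

end Pool.Agent.Q258.TwoPar
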