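import Pool.Agent.Q258.TwoPar.A
import Pool.Agent.H327R2.SC.ExpLat
import Pool.Agent.W242.GG.Count

set_option autoImplicit false

namespace Pool.Agent.Q258.TwoPar

open Pool.Agent.H340R2 Polynomial
open Pool.Agent.H327R2.SC (MM mem_cl cl_of_alg cl_add cl_mul cl_inv subset_cl lw_algInd)
open Pool.Agent.H301R2.SSE (QB mem_QB)

/-- algebraically dependent on `t` -/
theorem cl_of_dep {t z : ℂ} (ht : Transcendental ℚ t) (h : ¬ AlgebraicIndependent ℚ ![t, z]) :
    z ∈ MM.closure {t} := by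
  by_contra hz
  apply h
  apply Pool.Agent.W242.GG.algInd_pair ht
  rw [IntermediateField.transcendental_adjoin_iff]
  intro h1
  exact hz (mem_cl.2 h1)

theorem not_cl_empty {z : ℂ} (hz : Transcendental ℚ z) : z ∉ MM.closure ∅ := by
  intro h
  apply hz
  have h1 := mem_cl.1 h
  have h2 : IsAlgebraic (Algebra.adjoin ℚ (∅ : Set ℂ)) z := h1
  have : Algebra.IsAlgebraic ℚ (Algebra.adjoin ℚ (∅ : Set ℂ)) := by
    rw [Algebra.adjoin_empty]
    constructor
    rintro ⟨x, hx⟩
    obtain ⟨q, rfl⟩ := Algebra.mem_bot.1 hx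
    exact isAlgebraic_algebraMap q
  exact h2.restrictScalars ℚ

/-- two exponentials of algebraic numbers in one field of transcendence degree one -/
theorem lw_dep {t r r' : ℂ} (hr : IsAlgebraic ℚ r) (hr' : IsAlgebraic ℚ r') (h0 : r ≠ 0)
    (h : Complex.exp r ∈ MM.closure {t}) (h' : Complex.exp r' ∈ MM.closure {t}) :
    ∃ q : ℚ, r' = q * r := by
  by_contra hcon
  push Not at hcon
  have hli : LinearIndependent ℚ ![r, r'] := by
    rw [LinearIndependent.pair_iff]
    intro a b hab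
    simp only [Rat.smul_def] at hab
    by_cases hb : b = 0
    · subst hb
      refine ⟨?_, rfl⟩
      simpa [h0] using hab
    · exfalso
      apply hcon (-a / b)
      have hb' : (b : ℂ) ≠ 0 := by exact_mod_cast hb
      push_cast
      field_simp
      linear_combination hab
  have hind := lw_algInd ![r, r'] (by
    intro i
    fin_cases i
    · exact hr
    · exact hr') hli
  have htr : Transcendental ℚ (Complex.exp r) := LW.transcendental_cexp r hr h0
  have h1 : t ∈ MM.closure {Complex.exp r} := by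
    have h2 : Complex.exp r ∈ MM.closure (insert t ∅) \ MM.closure ∅ :=
      ⟨by simpa using h, not_cl_empty htr⟩
    have := (Matroid.closure_exchange h2).1
    simpa using this
  have h3 : Complex.exp r' ∈ MM.closure {Complex.exp r} := by
    have h4 : MM.closure {t} ⊆ MM.closure {Complex.exp r} :=
      Matroid.closure_subset_closure_of_subset_closure (by simpa using h1)
    exact h4 h'
  have h5 := (AlgebraicIndependent.iff_transcendental_adjoin_image (1 : Fin 2)).1 hind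
  apply h5.2
  have h6 : ((fun i => Complex.exp ((![r, r'] : Fin 2 → ℂ) i)) '' ({1}ᶜ : Set (Fin 2))) =
      {Complex.exp r} := by
    ext z
    simp only [Set.mem_image, Set.mem_compl_iff, Set.mem_singleton_iff]
    constructor
    · rintro ⟨i, hi, rfl⟩
      fin_cases i
      · rfl
      · exact absurd rfl hi
    · rintro rfl
      exact ⟨0, by decide, rfl⟩
  rw [h6]
  exact mem_cl.1 h3

/-- `a X^n + c X^m` with one of `m`, `n` zero -/
noncomputable def PP (a c : ℂ) (n m : ℕ) : ℂ[X] := C a * X ^ n + C c * X ^ m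

theorem PP_mult {a c : ℂ} {n m : ℕ} (hc : c ≠ 0) (hnm : (n = 0 ∧ 0 < m) ∨ (m = 0 ∧ 0 < n))
    {x : ℂ} (hx : x ≠ 0) (hroot : (PP a c n m).eval x = 0) :
    (PP a c n m).rootMultiplicity x = 1 ∧ PP a c n m ≠ 0 := by
  have hev : a * x ^ n + c * x ^ m = 0 := by simpa [PP] using hroot
  have hder : (derivative (PP a c n m)).eval x = a * (n * x ^ (n - 1)) + c * (m * x ^ (m - 1)) := by
    simp only [PP, derivative_add, derivative_C_mul, derivative_X_pow, eval_add, eval_mul, eval_C,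
      eval_pow, eval_X]
  have hne : (derivative (PP a c n m)).eval x ≠ 0 := by
    rw [hder]
    rcases hnm with ⟨rfl, hm⟩ | ⟨rfl, hn⟩
    · simp only [Nat.cast_zero, zero_mul, mul_zero, zero_add]
      have : (m : ℂ) ≠ 0 := by exact_mod_cast hm.ne'
      exact mul_ne_zero hc (mul_ne_zero this (pow_ne_zero _ hx))
    · simp only [Nat.cast_zero, zero_mul, mul_zero, add_zero]
      have : (n : ℂ) ≠ 0 := by exact_mod_cast hn.ne'
      have ha : a ≠ 0 := by
        rintro rfl
        apply hc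
        simpa using hev
      exact mul_ne_zero ha (mul_ne_zero this (pow_ne_zero _ hx))
  have hP : PP a c n m ≠ 0 := by
    intro h
    rw [h] at hne
    simp at hne
  refine ⟨?_, hP⟩
  have h1 : 0 < (PP a c n m).rootMultiplicity x := (rootMultiplicity_pos hP).2 hroot
  have h2 : ¬ 1 < (PP a c n m).rootMultiplicity x := by
    rw [one_lt_rootMultiplicity_iff_isRoot hP]
    rintro ⟨-, h⟩
    exact hne h
  omega

theorem PP_root {a c : ℂ} {n m : ℕ} (ha : a ≠ 0) (hc : c ≠ 0)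
    (hnm : (n = 0 ∧ 0 < m) ∨ (m = 0 ∧ 0 < n)) : ∃ x : ℂ, x ≠ 0 ∧ (PP a c n m).eval x = 0 := by
  rcases hnm with ⟨rfl, hm⟩ | ⟨rfl, hn⟩
  · obtain ⟨z, hz⟩ := IsAlgClosed.exists_pow_nat_eq (-a / c) hm
    refine ⟨z, ?_, ?_⟩
    · rintro rfl
      rw [zero_pow hm.ne'] at hz
      have : -a / c ≠ 0 := div_ne_zero (neg_ne_zero.mpr ha) hc
      exact this hz.symm
    · simp only [PP, eval_add, eval_mul, eval_C, eval_pow, eval_X, pow_zero, mul_one]
      rw [hz]
      field_simp
      ring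
  · obtain ⟨z, hz⟩ := IsAlgClosed.exists_pow_nat_eq (-c / a) hn
    refine ⟨z, ?_, ?_⟩
    · rintro rfl
      rw [zero_pow hn.ne'] at hz
      have : -c / a ≠ 0 := div_ne_zero (neg_ne_zero.mpr hc) ha
      exact this hz.symm
    · simp only [PP, eval_add, eval_mul, eval_C, eval_pow, eval_X, pow_zero, mul_one]
      rw [hz]
      field_simp
      ring

/-- polynomials with algebraic coefficients which agree at a transcendental number -/
def AlgPol (P : ℂ[X]) : Prop := ∃ Q : QB[X], P = Q.map (algebraMap QB ℂ)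

theorem AlgPol.mul {P Q : ℂ[X]} (hP : AlgPol P) (hQ : AlgPol Q) : AlgPol (P * Q) := by
  obtain ⟨P', rfl⟩ := hP
  obtain ⟨Q', rfl⟩ := hQ
  exact ⟨P' * Q', by rw [Polynomial.map_mul]⟩

theorem AlgPol.pow {P : ℂ[X]} (hP : AlgPol P) (n : ℕ) : AlgPol (P ^ n) := by
  obtain ⟨P', rfl⟩ := hP
  exact ⟨P' ^ n, by rw [Polynomial.map_pow]⟩

theorem algPol_X : AlgPol (X : ℂ[X]) := ⟨X, by rw [Polynomial.map_X]⟩

theorem algPol_PP {a c : ℂ} (ha : IsAlgebraic ℚ a) (hc : IsAlgebraic ℚ c) (n m : ℕ) :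
    AlgPol (PP a c n m) := by
  refine ⟨C (⟨a, mem_QB.mpr ha⟩ : QB) * X ^ n + C (⟨c, mem_QB.mpr hc⟩ : QB) * X ^ m, ?_⟩
  simp only [PP, Polynomial.map_add, Polynomial.map_mul, Polynomial.map_C, Polynomial.map_pow,
    Polynomial.map_X]
  rfl

theorem AlgPol.ext {P Q : ℂ[X]} (hP : AlgPol P) (hQ : AlgPol Q) {θ : ℂ}
    (hθ : Transcendental ℚ θ) (h : P.eval θ = Q.eval θ) : P = Q := by
  obtain ⟨P', rfl⟩ := hP
  obtain ⟨Q', rfl⟩ := hQ
  congr 1
  have h1 : aeval θ (P' - Q') = 0 := by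
    rw [map_sub, sub_eq_zero]
    rw [Polynomial.eval_map, Polynomial.eval_map] at h
    exact h
  by_contra hne
  exact trans_QB hθ ⟨P' - Q', sub_ne_zero.mpr hne, h1⟩

theorem eval_PP {a c θ : ℂ} (hθ : θ ≠ 0) (k : ℤ) :
    (PP a c (-k).toNat k.toNat).eval θ = θ ^ (-k).toNat * (a + c * θ ^ k) := by
  simp only [PP, eval_add, eval_mul, eval_C, eval_pow, eval_X]
  have h1 : θ ^ k.toNat = θ ^ (-k).toNat * θ ^ k := by
    rw [← zpow_natCast, ← zpow_natCast, ← zpow_add₀ hθ]
    congr 1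
    omega
  rw [h1]
  ring

theorem hnm (k : ℤ) (hk : k ≠ 0) : ((-k).toNat = 0 ∧ 0 < k.toNat) ∨ (k.toNat = 0 ∧ 0 < (-k).toNat) := by
  omega

theorem count_pow (P : ℂ[X]) (x : ℂ) (n : ℕ) (hP : P ≠ 0) :
    (P ^ n).rootMultiplicity x = n * P.rootMultiplicity x := by
  induction n with
  | zero => simp
  | succ n ih =>
    rw [pow_succ, rootMultiplicity_mul (mul_ne_zero (pow_ne_zero _ hP) hP), ih]
    ring

theorem mult_X {x : ℂ} (hx : x ≠ 0) : (X : ℂ[X]).rootMultiplicity x = 0 := by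
  rw [rootMultiplicity_eq_zero]
  simpa using hx

/-- the exponents agree, positive exponents -/
theorem key_pos {θ : ℂ} (hθ : Transcendental ℚ θ) {a c a' c' : ℂ} (ha : IsAlgebraic ℚ a)
    (hc : IsAlgebraic ℚ c) (ha' : IsAlgebraic ℚ a') (hc' : IsAlgebraic ℚ c') (ha0 : a ≠ 0)
    (hc0 : c ≠ 0) (hc0' : c' ≠ 0) {k k' : ℤ} (hk : k ≠ 0) (hk' : k' ≠ 0) (p q : ℕ) (hp : 0 < p)
    (h : (a + c * θ ^ k) ^ p = (a' + c' * θ ^ k') ^ q) : p = q := by
  have hθ0 : θ ≠ 0 := by
    rintro rfl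
    exact hθ isAlgebraic_zero
  set n := (-k).toNat with hn
  set m := k.toNat with hm
  set n' := (-k').toNat with hn'
  set m' := k'.toNat with hm'
  have hid : PP a c n m ^ p * X ^ (n' * q) = PP a' c' n' m' ^ q * X ^ (n * p) := by
    refine AlgPol.ext ((algPol_PP ha hc n m).pow p |>.mul (algPol_X.pow _))
      ((algPol_PP ha' hc' n' m').pow q |>.mul (algPol_X.pow _)) hθ ?_
    rw [eval_mul, eval_mul, eval_pow, eval_pow, eval_pow, eval_pow, eval_X, hn, hm, hn', hm',
      eval_PP hθ0, eval_PP hθ0, mul_pow, mul_pow, h]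
    rw [← pow_mul, ← pow_mul]
    ring
  obtain ⟨x, hx, hx0⟩ := PP_root ha0 hc0 (hnm k hk)
  rw [← hn, ← hm] at hx0
  have h1 := PP_mult hc0 (hnm k hk) hx (by rw [← hn, ← hm]; exact hx0)
  rw [← hn, ← hm] at h1
  have hq : 0 < q := by
    rcases Nat.eq_zero_or_pos q with rfl | hq
    · exfalso
      have := congrArg (eval x) hid
      rw [eval_mul, eval_pow, hx0, zero_pow hp.ne', zero_mul] at this
      simp only [pow_zero, one_mul, eval_pow, eval_X] at this
      exact pow_ne_zero _ hx this.symm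
    · exact hq
  have hx0' : (PP a' c' n' m').eval x = 0 := by
    have := congrArg (eval x) hid
    rw [eval_mul, eval_pow, hx0, zero_pow hp.ne', zero_mul, eval_mul, eval_pow, eval_pow,
      eval_X] at this
    have h3 := (mul_eq_zero.mp this.symm).resolve_right (pow_ne_zero _ hx)
    exact pow_eq_zero_iff hq.ne' |>.mp h3
  have h2 := PP_mult hc0' (hnm k' hk') hx (by rw [← hn', ← hm']; exact hx0')
  rw [← hn', ← hm'] at h2
  have h3 := congrArg (rootMultiplicity x) hid
  rw [rootMultiplicity_mul (mul_ne_zero (pow_ne_zero _ h1.2) (pow_ne_zero _ X_ne_zero)),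
    rootMultiplicity_mul (mul_ne_zero (pow_ne_zero _ h2.2) (pow_ne_zero _ X_ne_zero)),
    count_pow _ _ _ h1.2, count_pow _ _ _ h2.2, count_pow _ _ _ X_ne_zero,
    count_pow _ _ _ X_ne_zero, mult_X hx, h1.1, h2.1] at h3
  simpa using h3

/-- a product of two such powers is not one -/
theorem key_neg {θ : ℂ} (hθ : Transcendental ℚ θ) {a c a' c' : ℂ} (ha : IsAlgebraic ℚ a)
    (hc : IsAlgebraic ℚ c) (ha' : IsAlgebraic ℚ a') (hc' : IsAlgebraic ℚ c') (ha0 : a ≠ 0)
    (hc0 : c ≠ 0) {k k' : ℤ} (hk : k ≠ 0) (p q : ℕ) (hp : 0 < p)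
    (h : (a + c * θ ^ k) ^ p * (a' + c' * θ ^ k') ^ q = 1) : False := by
  have hθ0 : θ ≠ 0 := by
    rintro rfl
    exact hθ isAlgebraic_zero
  set n := (-k).toNat with hn
  set m := k.toNat with hm
  set n' := (-k').toNat with hn'
  set m' := k'.toNat with hm'
  have hid : PP a c n m ^ p * PP a' c' n' m' ^ q = X ^ (n * p + n' * q) := by
    refine AlgPol.ext ((algPol_PP ha hc n m).pow p |>.mul ((algPol_PP ha' hc' n' m').pow q))
      (algPol_X.pow _) hθ ?_
    rw [eval_mul, eval_pow, eval_pow, eval_pow, eval_X, hn, hm, hn', hm',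
      eval_PP hθ0, eval_PP hθ0, mul_pow, mul_pow, ← pow_mul, ← pow_mul, pow_add]
    linear_combination (θ ^ ((-k).toNat * p) * θ ^ ((-k').toNat * q)) * h
  obtain ⟨x, hx, hx0⟩ := PP_root ha0 hc0 (hnm k hk)
  rw [← hn, ← hm] at hx0
  have := congrArg (eval x) hid
  rw [eval_mul, eval_pow, hx0, zero_pow hp.ne', zero_mul, eval_pow, eval_X] at this
  exact pow_ne_zero _ hx this.symm

/-- linear dependence of `1`, `x`, `y` over the algebraic numbers -/
def Dep (x y : ℂ) : Prop := ∃ a b c : ℂ, IsAlgebraic ℚ a ∧ IsAlgebraic ℚ b ∧ IsAlgebraic ℚ c ∧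
  (a ≠ 0 ∨ b ≠ 0 ∨ c ≠ 0) ∧ a + b * x + c * y = 0

theorem Dep.rep {x y : ℂ} (hx : Transcendental ℚ x) (hy : Transcendental ℚ y) (h : Dep x y) :
    ∃ a c : ℂ, IsAlgebraic ℚ a ∧ IsAlgebraic ℚ c ∧ c ≠ 0 ∧ x = a + c * y := by
  obtain ⟨a, b, c, ha, hb, hc, hne, h⟩ := h
  have hb0 : b ≠ 0 := by
    rintro rfl
    by_cases hc0 : c = 0
    · subst hc0
      simp at h
      simp [h] at hne
    · apply hy
      have : y = -a * c⁻¹ := by
        field_simp
        linear_combination h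
      rw [this]
      exact ha.neg.mul hc.inv
  have hc0 : c ≠ 0 := by
    rintro rfl
    apply hx
    have : x = -a * b⁻¹ := by
      field_simp
      linear_combination h
    rw [this]
    exact ha.neg.mul hb.inv
  refine ⟨-a * b⁻¹, -c * b⁻¹, ha.neg.mul hb.inv, hc.neg.mul hb.inv,
    mul_ne_zero (neg_ne_zero.mpr hc0) (inv_ne_zero hb0), ?_⟩
  field_simp
  linear_combination h

theorem Dep.of_rep {x y a c : ℂ} (ha : IsAlgebraic ℚ a) (hc : IsAlgebraic ℚ c)
    (h : x = a + c * y) : Dep x y :=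
  ⟨a, -1, c, ha, isAlgebraic_one.neg, hc, by simp, by rw [h]; ring⟩

/-- each transcendental number has at most one exponential -/
theorem dep_exp {t α α' : ℂ} (ht : Transcendental ℚ t) (hα : IsAlgebraic ℚ α)
    (hα' : IsAlgebraic ℚ α') (h0 : α ≠ 0) (h0' : α' ≠ 0) (h : Dep (Complex.exp α) t)
    (h' : Dep (Complex.exp α') t) : α = α' := by
  obtain ⟨a, c, ha, hc, hc0, e⟩ := h.rep (LW.transcendental_cexp α hα h0) ht
  obtain ⟨a', c', ha', hc', hc0', e'⟩ := h'.rep (LW.transcendental_cexp α' hα' h0') ht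
  by_contra hne
  have := LW.exp_linearIndependent_aux α α' (c * a' - c' * a) c' (-c) hα hα' h0 h0' hne
    ((hc.mul ha').sub (hc'.mul ha)) hc' hc.neg (by rw [e, e']; ring)
  exact hc0' this.2.1

theorem dep_conj {t : ℝ} {α : ℂ} (h : Dep (Complex.exp α) t) :
    Dep (Complex.exp ((starRingEnd ℂ) α)) t := by
  obtain ⟨a, b, c, ha, hb, hc, hne, h⟩ := h
  refine ⟨_, _, _, conj_alg ha, conj_alg hb, conj_alg hc, ?_, ?_⟩
  · simpa using hne
  · have := congrArg (starRingEnd ℂ) h
    rw [map_add, map_add, map_mul, map_mul, Complex.conj_ofReal, ← Complex.exp_conj,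
      map_zero] at this
    exact this

/-- each exponential has at most one line of logarithms -/
theorem dep_log {α l l' : ℂ} (hα : IsAlgebraic ℚ α) (h0 : α ≠ 0) (hl : l ≠ 0) (hl' : l' ≠ 0)
    (hel : IsAlgebraic ℚ (Complex.exp l)) (hel' : IsAlgebraic ℚ (Complex.exp l'))
    (h : Dep (Complex.exp α) l) (h' : Dep (Complex.exp α) l') : ∃ q : ℚ, l = q * l' := by
  have ht : ∀ l : ℂ, l ≠ 0 → IsAlgebraic ℚ (Complex.exp l) → Transcendental ℚ l :=
    fun l hl h1 h2 => LW.transcendental_cexp l h2 hl h1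
  obtain ⟨a, c, ha, hc, hc0, e⟩ := h.rep (LW.transcendental_cexp α hα h0) (ht l hl hel)
  obtain ⟨a', c', ha', hc', hc0', e'⟩ := h'.rep (LW.transcendental_cexp α hα h0) (ht l' hl' hel')
  by_contra hcon
  push Not at hcon
  have hω : LinearIndependent ℚ ![l, l'] := by
    rw [LinearIndependent.pair_iff]
    intro x y hxy
    simp only [Rat.smul_def] at hxy
    by_cases hx : x = 0
    · subst hx
      refine ⟨rfl, ?_⟩
      simpa [hl'] using hxy
    · exfalso
      apply hcon (-y / x)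
      have hx' : (x : ℂ) ≠ 0 := by exact_mod_cast hx
      push_cast
      field_simp
      linear_combination hxy
  have := Pool.Agent.H297R2.baker_inhom ![l, l'] (by
    intro i
    fin_cases i
    · exact hel
    · exact hel') hω (a - a') (ha.sub ha') ![c, -c'] (by
    intro i
    fin_cases i
    · exact hc
    · exact hc'.neg) (by
    rw [Fin.sum_univ_two]
    simp only [Matrix.cons_val_zero, Matrix.cons_val_one]
    linear_combination e' - e)
  exact hc0 (this.2 0)

/-- `e^r = a + c t^s`, `a ≠ 0`: no other pair -/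
theorem rigid {t : ℝ} (ht : 0 < t) (htr : Transcendental ℚ t) {r r' : ℂ} {s s' : ℚ}
    (hr : IsAlgebraic ℚ r) (hr' : IsAlgebraic ℚ r') (hr0 : r ≠ 0) (hr0' : r' ≠ 0) (hs : s ≠ 0)
    (hs' : s' ≠ 0) {a c a' c' : ℂ} (ha : IsAlgebraic ℚ a)
    (hc : IsAlgebraic ℚ c) (ha' : IsAlgebraic ℚ a') (hc' : IsAlgebraic ℚ c') (hc0 : c ≠ 0)
    (hc0' : c' ≠ 0) (ha0 : a ≠ 0) (h : Complex.exp r = a + c * ((t ^ (s : ℝ) : ℝ) : ℂ))
    (h' : Complex.exp r' = a' + c' * ((t ^ (s' : ℝ) : ℝ) : ℂ)) : r = r' ∧ s = s' := by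
  obtain ⟨N, k, hN, hk⟩ := common ![s, s']
  have hk0 := hk 0
  have hk1 := hk 1
  simp only [Matrix.cons_val_zero, Matrix.cons_val_one] at hk0 hk1
  set u : ℝ := t ^ ((1 : ℝ) / N) with hu
  have hu0 : 0 < u := Real.rpow_pos_of_pos ht _
  have hN' : (N : ℝ) ≠ 0 := by positivity
  have hNq : (N : ℚ) ≠ 0 := by positivity
  have e0 : ((t ^ (s : ℝ) : ℝ) : ℂ) = (u : ℂ) ^ (k 0) := by
    rw [← Complex.ofReal_zpow, hu, ← Real.rpow_intCast, ← Real.rpow_mul ht.le, hk0]
    congr 2
    push_cast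
    field_simp
  have e1 : ((t ^ (s' : ℝ) : ℝ) : ℂ) = (u : ℂ) ^ (k 1) := by
    rw [← Complex.ofReal_zpow, hu, ← Real.rpow_intCast, ← Real.rpow_mul ht.le, hk1]
    congr 2
    push_cast
    field_simp
  have hθ : Transcendental ℚ (u : ℂ) := root_trans ht htr N hN
  have hk0' : k 0 ≠ 0 := by
    intro h0
    rw [h0] at hk0
    simp at hk0
    exact hs hk0
  have hk1' : k 1 ≠ 0 := by
    intro h0
    rw [h0] at hk1
    simp at hk1
    exact hs' hk1
  have hclpow : ∀ j : ℤ, (u : ℂ) ^ j ∈ MM.closure {(u : ℂ)} := by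
    intro j
    have h1 : (u : ℂ) ∈ MM.closure {(u : ℂ)} := subset_cl _ rfl
    have h2 : ∀ i : ℕ, (u : ℂ) ^ i ∈ MM.closure {(u : ℂ)} := by
      intro i
      induction i with
      | zero => rw [pow_zero]; exact cl_of_alg _ isAlgebraic_one
      | succ i ih => rw [pow_succ]; exact cl_mul ih h1
    rcases j with j | j
    · simpa using h2 j
    · rw [zpow_negSucc]
      exact cl_inv (h2 (j + 1))
  have hcl : Complex.exp r ∈ MM.closure {(u : ℂ)} := by
    rw [h, e0]
    exact cl_add (cl_of_alg _ ha) (cl_mul (cl_of_alg _ hc) (hclpow _))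
  have hcl' : Complex.exp r' ∈ MM.closure {(u : ℂ)} := by
    rw [h', e1]
    exact cl_add (cl_of_alg _ ha') (cl_mul (cl_of_alg _ hc') (hclpow _))
  obtain ⟨q, hq⟩ := lw_dep hr hr' hr0 hcl hcl'
  have hq0 : q ≠ 0 := by
    rintro rfl
    apply hr0'
    rw [hq]
    simp
  -- `den * r' = num * r`
  have hden : (q.den : ℂ) * r' = (q.num : ℂ) * r := by
    rw [hq]
    have : (q : ℂ) = (q.num : ℂ) / (q.den : ℂ) := by
      exact_mod_cast (Rat.num_div_den q).symm
    rw [this]
    have : (q.den : ℂ) ≠ 0 := by exact_mod_cast q.den_nz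
    field_simp
  rcases lt_or_gt_of_ne hq0 with hneg | hpos
  · exfalso
    obtain ⟨P, hP⟩ : ∃ P : ℕ, q.num = -(P : ℤ) := ⟨q.num.natAbs, by
      have := Rat.num_neg.mpr hneg
      omega⟩
    have hP0 : 0 < P := by
      have := Rat.num_neg.mpr hneg
      omega
    refine key_neg hθ ha hc ha' hc' ha0 hc0 hk0' P q.den hP0 (k' := k 1) ?_
    rw [← e0, ← e1, ← h, ← h', ← Complex.exp_nat_mul, ← Complex.exp_nat_mul, ← Complex.exp_add]
    rw [hP] at hden
    push_cast at hden
    have : (P : ℂ) * r + (q.den : ℂ) * r' = 0 := by linear_combination hden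
    rw [this, Complex.exp_zero]
  · obtain ⟨P, hP⟩ : ∃ P : ℕ, q.num = (P : ℤ) := ⟨q.num.natAbs, by
      have := Rat.num_pos.mpr hpos
      omega⟩
    have hP0 : 0 < P := by
      have := Rat.num_pos.mpr hpos
      omega
    have hPq := key_pos hθ ha hc ha' hc' ha0 hc0 hc0' hk0' hk1' P q.den hP0 (by
      rw [← e0, ← e1, ← h, ← h', ← Complex.exp_nat_mul, ← Complex.exp_nat_mul]
      rw [hP] at hden
      push_cast at hden
      rw [hden])
    have hrr : r = r' := by
      rw [hP, hPq] at hden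
      push_cast at hden
      have : (q.den : ℂ) ≠ 0 := by exact_mod_cast q.den_nz
      exact (mul_left_cancel₀ this hden).symm
    refine ⟨hrr, ?_⟩
    by_contra hss
    subst hrr
    have h3 := rpow_indep ht htr ![0, s, s'] (by
      intro i j hij
      fin_cases i <;> fin_cases j <;>
        first
        | rfl
        | (exfalso
           simp at hij
           first
           | exact hs hij
           | exact hs hij.symm
           | exact hs' hij
           | exact hs' hij.symm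
           | exact hss hij
           | exact hss hij.symm)) 1 one_ne_zero ![a - a', c, -c'] (by
      intro i
      fin_cases i
      · exact ha.sub ha'
      · exact hc
      · exact hc'.neg) (by
      rw [Fin.sum_univ_three]
      simp only [Matrix.cons_val_zero, Matrix.cons_val_one, Matrix.cons_val, Rat.cast_zero,
        Real.rpow_zero, Complex.ofReal_one, mul_one]
      linear_combination h' - h) 1
    exact hc0 h3

/-- `e^r = c t^s`, `e^r' = c' t^s'`: the pairs are proportional -/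
theorem prop_pair {t : ℝ} (ht : 0 < t) {r r' : ℂ} {s s' : ℚ}
    (hr : IsAlgebraic ℚ r) (hr' : IsAlgebraic ℚ r') (hs : s ≠ 0)
    {c c' : ℂ} (hc : IsAlgebraic ℚ c) (hc' : IsAlgebraic ℚ c') (hc0 : c ≠ 0) (hc0' : c' ≠ 0)
    (h : Complex.exp r = c * ((t ^ (s : ℝ) : ℝ) : ℂ))
    (h' : Complex.exp r' = c' * ((t ^ (s' : ℝ) : ℝ) : ℂ)) : r' = r / s * s' := by
  obtain ⟨N, k, hN, hk⟩ := common ![s, s']
  have hk0 := hk 0
  have hk1 := hk 1
  simp only [Matrix.cons_val_zero, Matrix.cons_val_one] at hk0 hk1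
  have hNq : (N : ℚ) ≠ 0 := by positivity
  have hk0' : k 0 ≠ 0 := by
    intro h0
    rw [h0] at hk0
    simp at hk0
    exact hs hk0
  have e : Complex.exp ((k 1 : ℂ) * r - (k 0 : ℂ) * r') = c ^ (k 1) * (c' ^ (k 0))⁻¹ := by
    rw [Complex.exp_sub, Complex.exp_int_mul, Complex.exp_int_mul, h, h', mul_zpow, mul_zpow,
      ← Complex.ofReal_zpow, ← Complex.ofReal_zpow, ← Real.rpow_intCast, ← Real.rpow_intCast,
      ← Real.rpow_mul ht.le, ← Real.rpow_mul ht.le]
    have h1 : (s : ℝ) * (k 1 : ℝ) = (s' : ℝ) * (k 0 : ℝ) := by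
      have : s * (k 1 : ℚ) = s' * (k 0 : ℚ) := by
        rw [hk0, hk1]
        field_simp
      exact_mod_cast this
    rw [h1]
    have h2 : ((t ^ ((s' : ℝ) * (k 0 : ℝ)) : ℝ) : ℂ) ≠ 0 := by
      exact_mod_cast (Real.rpow_pos_of_pos ht _).ne'
    have h3 : c' ^ (k 0) ≠ 0 := zpow_ne_zero _ hc0'
    field_simp
  have halg : IsAlgebraic ℚ (c ^ (k 1) * (c' ^ (k 0))⁻¹) := by
    have hz : ∀ (x : ℂ) (n : ℤ), IsAlgebraic ℚ x → IsAlgebraic ℚ (x ^ n) := by
      intro x n hx
      rcases n with n | n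
      · simpa using hx.pow n
      · rw [zpow_negSucc]
        exact (hx.pow _).inv
    exact (hz _ _ hc).mul (hz _ _ hc').inv
  have h1 := exp_alg (((isAlgebraic_intCast (k 1)).mul hr).sub
    ((isAlgebraic_intCast (k 0)).mul hr')) (by rw [e]; exact halg)
  have hk0c : (k 0 : ℂ) ≠ 0 := by exact_mod_cast hk0'
  have hNc : (N : ℂ) ≠ 0 := by exact_mod_cast hN.ne'
  have hsc : (s : ℂ) = (k 0 : ℂ) / N := by
    rw [hk0]; push_cast; rfl
  have hsc' : (s' : ℂ) = (k 1 : ℂ) / N := by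
    rw [hk1]; push_cast; rfl
  rw [hsc, hsc']
  field_simp
  linear_combination -h1

end Pool.Agent.Q258.TwoPar
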